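import Pool.Agent.helper5.SYM.SpecA

/-!
# sy:S60, six ends: no vertex of `J` is joined to itself
-/

set_option autoImplicit false

namespace Pool.Agent.SYM
open Finset CT Polynomial

theorem S60_add {W : Type} [DecidableEq W] (R R' : (W × Fin 4 → W × Fin 4) → ZMod 2) :
    ∀ (L : List W) (e : W × Fin 4 → W × Fin 4),
      NL (fun e' => R e' + R' e') L e = NL R L e + NL R' L e := by
  intro L
  induction L with
  | nil =>
    intro e
    rfl
  | cons u L ih =>
    intro e
    show (∑ t : Fin 3, if ls e u t = 0 then NL (fun e' => R e' + R' e') L (sm e u t) else 0) =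
      (∑ t : Fin 3, if ls e u t = 0 then NL R L (sm e u t) else 0) +
      (∑ t : Fin 3, if ls e u t = 0 then NL R' L (sm e u t) else 0)
    rw [← Finset.sum_add_distrib]
    refine Finset.sum_congr rfl fun t _ => ?_
    by_cases h : ls e u t = 0
    · rw [if_pos h, if_pos h, if_pos h, ih]
    · rw [if_neg h, if_neg h, if_neg h, add_zero]

theorem S60_zero {W : Type} [DecidableEq W] :
    ∀ (L : List W) (e : W × Fin 4 → W × Fin 4), NL (fun _ => (0 : ZMod 2)) L e = 0 := by
  intro L
  induction L with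
  | nil =>
    intro e
    rfl
  | cons u L ih =>
    intro e
    show (∑ t : Fin 3, if ls e u t = 0 then NL (fun _ => (0 : ZMod 2)) L (sm e u t) else 0) = 0
    refine Finset.sum_eq_zero fun t _ => ?_
    rw [ih, ite_self]

theorem S60_sum {W ι : Type} [DecidableEq W] [DecidableEq ι]
    (R : ι → (W × Fin 4 → W × Fin 4) → ZMod 2) (L : List W) (e : W × Fin 4 → W × Fin 4)
    (s : Finset ι) :
    NL (fun e' => ∑ q ∈ s, R q e') L e = ∑ q ∈ s, NL (R q) L e := by
  induction s using Finset.induction_on with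
  | empty =>
    rw [Finset.sum_empty]
    have h : (fun e' : W × Fin 4 → W × Fin 4 => ∑ q ∈ (∅ : Finset ι), R q e') =
        fun _ => (0 : ZMod 2) := by
      funext e'
      rw [Finset.sum_empty]
    rw [h]
    exact S60_zero L e
  | insert a s ha ih =>
    rw [Finset.sum_insert ha, ← ih, ← S60_add]
    congr 1
    funext e'
    rw [Finset.sum_insert ha]

theorem S60_one (hNLC : NLC_stmt) (hL6 : L6_stmt) {W : Type} [DecidableEq W] (L : List W)
    (E : Finset (W × Fin 4)) (e : W × Fin 4 → W × Fin 4) (hL : L.Nodup)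
    (hE : ∀ x ∈ E, x.1 ∉ L) (hE6 : E.card = 6) (h3 : 3 ≤ L.length)
    (hA : Act (dts L.toFinset ∪ E) e) : NL (fun _ => (1 : ZMod 2)) L e = 0 := by
  obtain ⟨p, hp⟩ : E.Nonempty := by
    rw [← Finset.card_pos, hE6]
    norm_num
  have h1 := hNLC W (fun _ => (1 : ZMod 2))
    (fun e' => ∑ q ∈ E.erase p, if e' p = q then (1 : ZMod 2) else 0) L E e hL hE hA (by
      intro e' he'
      show (1 : ZMod 2) = ∑ q ∈ E.erase p, if e' p = q then (1 : ZMod 2) else 0
      have hne : e' p ≠ p := (he'.2 p).mpr hp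
      have hmem : e' p ∈ E := by
        apply (he'.2 (e' p)).mp
        rw [he'.1]
        exact hne.symm
      have hm : e' p ∈ E.erase p := Finset.mem_erase.mpr ⟨hne, hmem⟩
      rw [Finset.sum_ite_eq, if_pos hm])
  rw [h1, S60_sum (fun q e' => if e' p = q then (1 : ZMod 2) else 0) L e (E.erase p)]
  refine Finset.sum_eq_zero fun q hq => ?_
  obtain ⟨hqp, hqE⟩ := Finset.mem_erase.mp hq
  exact hL6 W L E e p q hL hE hE6 h3 hA hp hqE hqp.symm

theorem S60_two {W : Type} [DecidableEq W] (J : Finset W) (hJ : J.card = 3)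
    (e' : W × Fin 4 → W × Fin 4) (he' : Act (jd J) e') : so J e' ≠ 2 := by
  intro hso
  have hso' : (J.filter fun j => e' (j, 0) = (j, 1)).card = 2 := hso
  have hneg : (J.filter fun j => ¬ e' (j, 0) = (j, 1)).card = 1 := by
    have := Finset.card_filter_add_card_filter_not (s := J) (fun j => e' (j, 0) = (j, 1))
    omega
  obtain ⟨c, hc⟩ := Finset.card_eq_one.mp hneg
  have hcm : c ∈ J.filter fun j => ¬ e' (j, 0) = (j, 1) := by
    rw [hc]
    exact Finset.mem_singleton_self c
  obtain ⟨hcJ, hcn⟩ := Finset.mem_filter.mp hcm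
  have hoth : ∀ j ∈ J, j ≠ c → e' (j, 0) = (j, 1) := by
    intro j hj hjc
    by_contra hcon
    have : j ∈ J.filter fun j => ¬ e' (j, 0) = (j, 1) := Finset.mem_filter.mpr ⟨hj, hcon⟩
    rw [hc] at this
    exact hjc (Finset.mem_singleton.mp this)
  have hcE : ((c, 0) : W × Fin 4) ∈ jd J := by
    unfold jd
    rw [Finset.mem_product]
    exact ⟨hcJ, by simp⟩
  have hne : e' (c, 0) ≠ (c, 0) := (he'.2 _).mpr hcE
  have hzE : e' (c, 0) ∈ jd J := by
    apply (he'.2 _).mp
    rw [he'.1]
    exact hne.symm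
  obtain ⟨z, hz⟩ : ∃ z : W × Fin 4, z = e' (c, 0) := ⟨_, rfl⟩
  rw [← hz] at hzE hne hcn
  have hez : e' z = (c, 0) := by
    rw [hz, he'.1]
  obtain ⟨j, i⟩ := z
  unfold jd at hzE
  rw [Finset.mem_product] at hzE
  obtain ⟨hjJ, hi⟩ := hzE
  have hi' : i = 0 ∨ i = 1 := by
    have hi2 : i ∈ ({0, 1} : Finset (Fin 4)) := hi
    rw [Finset.mem_insert, Finset.mem_singleton] at hi2
    exact hi2
  have hjJ' : j ∈ J := hjJ
  by_cases hjc : j = c
  · rcases hi' with h | h
    · apply hne
      rw [hjc, h]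
    · apply hcn
      rw [hjc, h]
  · have h1 := hoth j hjJ' hjc
    rcases hi' with h | h
    · rw [h, h1] at hez
      exact hjc (congrArg Prod.fst hez)
    · have h2 : e' (j, 1) = (j, 0) := by
        rw [← h1, he'.1]
      rw [h, h2] at hez
      exact hjc (congrArg Prod.fst hez)

theorem S60_zmod (n : ℕ) (hn : n ≤ 3) (h2 : n ≠ 2) :
    (if n = 0 then (1 : ZMod 2) else 0) = 1 + (n : ZMod 2) := by
  have h : n = 0 ∨ n = 1 ∨ n = 3 := by omega
  rcases h with h | h | h
  · subst h
    decide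
  · subst h
    decide
  · subst h
    decide

theorem S60 (hNLC : NLC_stmt) (hL6 : L6_stmt) : S60_stmt := by
  intro W _ L C J e hL hCL hJL hdis hcard hJ2 h3 hA
  have hE : ∀ x ∈ C ∪ jd J, x.1 ∉ L := by
    intro x hx
    rcases Finset.mem_union.mp hx with h | h
    · exact hCL x h
    · unfold jd at h
      exact hJL x.1 (Finset.mem_product.mp h).1
  have hjd : (jd J).card = J.card * 2 := by
    unfold jd
    rw [Finset.card_product]
    rfl
  have hcd : C.card + J.card * 2 = 6 := by
    rw [← hjd, ← Finset.card_union_of_disjoint hdis, hcard]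
  have hJ3 : J.card ≤ 3 := by omega
  have hkey : ∀ e' : W × Fin 4 → W × Fin 4, Act (C ∪ jd J) e' →
      (if so J e' = 0 then (1 : ZMod 2) else 0) =
        1 + ∑ j ∈ J, if e' (j, 0) = (j, 1) then (1 : ZMod 2) else 0 := by
    intro e' he'
    have hle : so J e' ≤ J.card := Finset.card_filter_le _ _
    have hne : so J e' ≠ 2 := by
      by_cases hJc : J.card = 3
      · have hC : C = ∅ := by
          rw [← Finset.card_eq_zero]
          omega
        rw [hC, Finset.empty_union] at he'
        exact S60_two J hJc e' he'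
      · omega
    rw [S60_zmod (so J e') (le_trans hle hJ3) hne, Finset.sum_boole]
    rfl
  rw [hNLC W (fun e' => if so J e' = 0 then (1 : ZMod 2) else 0)
    (fun e' => 1 + ∑ j ∈ J, if e' (j, 0) = (j, 1) then (1 : ZMod 2) else 0) L (C ∪ jd J) e hL hE hA
    hkey]
  rw [S60_add (fun _ => (1 : ZMod 2))
    (fun e' => ∑ j ∈ J, if e' (j, 0) = (j, 1) then (1 : ZMod 2) else 0) L e,
    S60_one hNLC hL6 L (C ∪ jd J) e hL hE hcard h3 hA, zero_add,
    S60_sum (fun j e' => if e' (j, 0) = (j, 1) then (1 : ZMod 2) else 0) L e J]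
  refine Finset.sum_eq_zero fun j hj => ?_
  have h0 : ((j, 0) : W × Fin 4) ∈ C ∪ jd J := by
    apply Finset.mem_union_right
    unfold jd
    rw [Finset.mem_product]
    exact ⟨hj, by simp⟩
  have h1 : ((j, 1) : W × Fin 4) ∈ C ∪ jd J := by
    apply Finset.mem_union_right
    unfold jd
    rw [Finset.mem_product]
    exact ⟨hj, by simp⟩
  refine hL6 W L (C ∪ jd J) e (j, 0) (j, 1) hL hE hcard h3 hA h0 h1 ?_
  intro h
  have h2 : (0 : Fin 4) = 1 := congrArg Prod.snd h
  exact absurd h2 (by decide)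

end Pool.Agent.SYM
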